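import Pool.Agent.H255R3.CR.Reach

/-!
# The condensation of a digraph with chordal underlying graph
-/

set_option autoImplicit false

open Classical Relation

namespace Pool.Agent.H255R3.CR

open Pool.Agent.H255R3.STC Pool.Agent.H534R2

variable {V : Type} {E : V → V → Prop}

theorem conn_class (q : Quotient (scc E)) : Conn (under E) {x | Quotient.mk (scc E) x = q} := by
  intro x hx y hy
  have hxy : ReflTransGen E x y ∧ ReflTransGen E y x := Quotient.exact (hx.trans hy.symm)
  have key : ∀ p, ReflTransGen E x p → ReflTransGen E p y →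
      ReflTransGen (fun u w => (under E).Adj u w ∧ u ∈ {x | Quotient.mk (scc E) x = q} ∧
        w ∈ {x | Quotient.mk (scc E) x = q}) x p := by
    intro p h
    induction h with
    | refl => exact fun _ => .refl
    | @tail p r hp hpr ih =>
      intro hr
      have h1 := ih (hr.head hpr)
      by_cases hpr' : p = r
      · rw [← hpr']; exact h1
      · refine h1.tail ⟨by rw [SimpleGraph.fromRel_adj]; exact ⟨hpr', Or.inl hpr⟩, ?_, ?_⟩
        · have : Quotient.mk (scc E) x = Quotient.mk (scc E) p :=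
            Quotient.sound ⟨hp, (hr.head hpr).trans hxy.2⟩
          exact this.symm.trans hx
        · have : Quotient.mk (scc E) x = Quotient.mk (scc E) r :=
            Quotient.sound ⟨hp.tail hpr, hr.trans hxy.2⟩
          exact this.symm.trans hx
  exact key y hxy.1 .refl

/-- Contracting the strong components preserves chordality. -/
theorem cond_chordal [Finite V] (hG : IsChordal (under E)) : IsChordal (under (condE E)) := by
  have := Fintype.ofFinite V
  intro n hn
  refine ⟨fun e => ?_⟩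
  obtain ⟨k, rfl⟩ : ∃ k, n = k + 2 := ⟨n - 2, by omega⟩
  obtain ⟨c, hc⟩ : ∃ c : ℕ → Quotient (scc E), ∀ i : Fin (k + 2), c i.val = e i :=
    ⟨fun i => if h : i < k + 2 then e ⟨i, h⟩ else e 0, fun i => by simp [i.isLt]⟩
  have hadj : ∀ i j, i < k + 2 → j < k + 2 → ((under (condE E)).Adj (c i) (c j) ↔
      (i + 1 = j ∨ j + 1 = i ∨ (i = 0 ∧ j = k + 1) ∨ (j = 0 ∧ i = k + 1))) := by
    intro i j hi hj
    have h1 := hc ⟨i, hi⟩
    have h2 := hc ⟨j, hj⟩
    simp only at h1 h2
    rw [h1, h2, e.map_adj_iff, cycle_adj]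
  have hinj : ∀ i j, i < k + 2 → j < k + 2 → c i = c j → i = j := by
    intro i j hi hj h
    have h1 := hc ⟨i, hi⟩
    have h2 := hc ⟨j, hj⟩
    simp only at h1 h2
    rw [h1, h2] at h
    simpa using e.injective h
  have nb : ∀ i j, i < k + 2 → j < k + 2 → (under (condE E)).Adj (c i) (c j) →
      ∃ a b, Quotient.mk (scc E) a = c i ∧ Quotient.mk (scc E) b = c j ∧
        (under E).Adj a b := by
    intro i j hi hj h
    rw [SimpleGraph.fromRel_adj] at h
    have hne : ∀ a b, Quotient.mk (scc E) a = c i → Quotient.mk (scc E) b = c j → a ≠ b := by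
      intro a b ha hb hab
      subst hab
      exact h.1 (ha.symm.trans hb)
    rcases h.2 with ⟨a, b, ha, hb, hab⟩ | ⟨b, a, hb, ha, hab⟩
    · exact ⟨a, b, ha, hb, by rw [SimpleGraph.fromRel_adj]; exact ⟨hne a b ha hb, Or.inl hab⟩⟩
    · exact ⟨a, b, ha, hb, by rw [SimpleGraph.fromRel_adj]; exact ⟨hne a b ha hb, Or.inr hab⟩⟩
  have bn : ∀ i j, i < k + 2 → j < k + 2 → i ≠ j → ∀ a b, Quotient.mk (scc E) a = c i →
      Quotient.mk (scc E) b = c j → (under E).Adj a b → (under (condE E)).Adj (c i) (c j) := by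
    intro i j hi hj hij a b ha hb hab
    rw [SimpleGraph.fromRel_adj] at hab ⊢
    refine ⟨fun h => hij (hinj i j hi hj h), ?_⟩
    rcases hab.2 with h | h
    · exact Or.inl ⟨a, b, ha, hb, h⟩
    · exact Or.inr ⟨b, a, hb, ha, h⟩
  let Y : Set V := {x | ∃ i, 2 ≤ i ∧ i ≤ k ∧ Quotient.mk (scc E) x = c i}
  have hstep : ∀ d i, 2 ≤ i → i + d ≤ k → ∀ x y, Quotient.mk (scc E) x = c i →
      Quotient.mk (scc E) y = c (i + d) →
      ReflTransGen (fun u w => (under E).Adj u w ∧ u ∈ Y ∧ w ∈ Y) x y := by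
    have hcl : ∀ i, 2 ≤ i → i ≤ k → ∀ x y, Quotient.mk (scc E) x = c i →
        Quotient.mk (scc E) y = c i →
        ReflTransGen (fun u w => (under E).Adj u w ∧ u ∈ Y ∧ w ∈ Y) x y := by
      intro i h2 hk x y hx hy
      exact (conn_class (c i) x hx y hy).lift id (fun p q h =>
        ⟨h.1, ⟨i, h2, hk, h.2.1⟩, ⟨i, h2, hk, h.2.2⟩⟩)
    intro d
    induction d with
    | zero =>
      intro i h2 hk x y hx hy
      exact hcl i h2 (by omega) x y hx (by simpa using hy)
    | succ d ih =>
      intro i h2 hk x y hx hy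
      obtain ⟨a, b, ha, hb, hab⟩ := nb (i + d) (i + d + 1) (by omega) (by omega)
        ((hadj _ _ (by omega) (by omega)).2 (by omega))
      have h3 := ih i h2 (by omega) x a hx ha
      have h4 := hcl (i + d + 1) (by omega) (by omega) b y hb (by rw [hy]; rfl)
      exact (h3.tail ⟨hab, ⟨i + d, by omega, by omega, ha⟩,
        ⟨i + d + 1, by omega, by omega, hb⟩⟩).trans h4
  have hsymm : ∀ {a b}, ReflTransGen (fun u w => (under E).Adj u w ∧ u ∈ Y ∧ w ∈ Y) a b →
      ReflTransGen (fun u w => (under E).Adj u w ∧ u ∈ Y ∧ w ∈ Y) b a := by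
    intro a b h
    induction h with
    | refl => exact .refl
    | tail _ h2 ih => exact ih.head ⟨h2.1.symm, h2.2.2, h2.2.1⟩
  have cY : Conn (under E) Y := by
    rintro x ⟨i, hi, hik, hx⟩ y ⟨j, hj, hjk, hy⟩
    rcases Nat.le_total i j with h | h
    · exact hstep (j - i) i hi (by omega) x y hx (by rw [hy]; congr 1; omega)
    · exact hsymm (hstep (i - j) j hj (by omega) y x hy (by rw [hx]; congr 1; omega))
  have hd : ∀ i j, i < k + 2 → j < k + 2 → i ≠ j →
      Disjoint {x | Quotient.mk (scc E) x = c i} {x | Quotient.mk (scc E) x = c j} := by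
    intro i j hi hj hij
    rw [Set.disjoint_left]
    intro x hx hx'
    exact hij (hinj i j hi hj (hx.symm.trans hx'))
  have hdY : ∀ i, i < k + 2 → (i < 2 ∨ k < i) →
      Disjoint {x | Quotient.mk (scc E) x = c i} Y := by
    intro i hi hi'
    rw [Set.disjoint_left]
    rintro x hx ⟨j, hj, hjk, hx'⟩
    have := hinj i j hi (by omega) (hx.symm.trans hx')
    omega
  have nb' : ∀ i j, i < k + 2 → j < k + 2 → (i + 1 = j ∨ (i = 0 ∧ j = k + 1)) →
      Nbr (under E) {x | Quotient.mk (scc E) x = c i} {x | Quotient.mk (scc E) x = c j} := by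
    intro i j hi hj h
    obtain ⟨a, b, ha, hb, hab⟩ := nb i j hi hj ((hadj i j hi hj).2 (by omega))
    exact ⟨a, ha, b, hb, hab⟩
  have hYA : Nbr (under E) Y {x | Quotient.mk (scc E) x = c 1} := by
    obtain ⟨a, ha, b, hb, hab⟩ := nb' 1 2 (by omega) (by omega) (by omega)
    exact ⟨b, ⟨2, le_rfl, by omega, hb⟩, a, ha, hab.symm⟩
  have hYB : Nbr (under E) Y {x | Quotient.mk (scc E) x = c (k + 1)} := by
    obtain ⟨a, ha, b, hb, hab⟩ := nb' k (k + 1) (by omega) (by omega) (by omega)
    exact ⟨a, ⟨k, by omega, le_rfl, ha⟩, b, hb, hab⟩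
  rcases noC4 hG (Set.univ : Set V).ncard Set.univ {x | Quotient.mk (scc E) x = c 0} Y
    {x | Quotient.mk (scc E) x = c 1} {x | Quotient.mk (scc E) x = c (k + 1)} le_rfl
    (Set.subset_univ _) (Set.subset_univ _) (Set.subset_univ _) (Set.subset_univ _)
    (hdY 0 (by omega) (by omega)) (hd 0 1 (by omega) (by omega) (by omega))
    (hd 0 (k + 1) (by omega) (by omega) (by omega)) (hdY 1 (by omega) (by omega)).symm
    (hdY (k + 1) (by omega) (by omega)).symm (hd 1 (k + 1) (by omega) (by omega) (by omega))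
    (conn_class _) cY (conn_class _) (conn_class _) (nb' 0 1 (by omega) (by omega) (by omega))
    (nb' 0 (k + 1) (by omega) (by omega) (by omega)) hYA hYB with h | h
  · obtain ⟨x, hx, y, ⟨j, hj, hjk, hy⟩, h⟩ := h
    have := (hadj 0 j (by omega) (by omega)).1
      (bn 0 j (by omega) (by omega) (by omega) x y hx hy h)
    omega
  · obtain ⟨x, hx, y, hy, h⟩ := h
    have := (hadj 1 (k + 1) (by omega) (by omega)).1
      (bn 1 (k + 1) (by omega) (by omega) (by omega) x y hx hy h)
    omega

end Pool.Agent.H255R3.CR
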