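import Pool.Agent.H255R3.CR.Cond

/-!
# Definability of reachability in digraphs whose condensation is chordal up to few vertices
-/

set_option autoImplicit false

open Relation

namespace Pool.Agent.H255R3.CR

open Pool.Agent.H255R3.STC Pool.Agent.H534R2

theorem dfn_arcS {R : BQry} (hR : Dfn2 R) : Dfn2 (fun V E => arcS E (R V E)) :=
  hR.comp (Dfn2.edge.comp hR)

theorem dfn_adjS {R : BQry} (hR : Dfn2 R) : Dfn2 (fun V E => adjS E (R V E)) :=
  hR.neg.and ((dfn_arcS hR).or (dfn_arcS hR).swap)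

theorem dfn_inN {R : BQry} (hR : Dfn2 R) : Dfn2 (fun V E => inN E (R V E)) :=
  hR.or (dfn_adjS hR)

theorem dfn_stepR {R : BQry} (hR : Dfn2 R) :
    Dfn (n := 3) (fun V E ν => stepR E (R V E) (ν 2) (ν 0) (ν 1)) :=
  ((hR.at 0 1).or ((dfn_adjS hR).at 0 1)).and
    ((((dfn_inN hR).at 2 0).neg).and (((dfn_inN hR).at 2 1).neg))

theorem dfn_KK {R : BQry} (hR : Dfn2 R) :
    Dfn (n := 3) (fun V E ν => KK E (R V E) (ν 2) (ν 1) (ν 0)) := by
  have h1 : Dfn (n := 6) (fun V E ν => stepR E (R V E) (ν 4) (ν 0) (ν 1)) :=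
    ((dfn_stepR hR).ren ![0, 1, 4]).congr fun V E ν => Iff.rfl
  have h2 : Dfn (n := 4) (fun V E ν => EqvGen (stepR E (R V E) (ν 2)) (ν 0) (ν 3)) :=
    (h1.stc 0 3).congr fun V E ν => Iff.rfl
  have h3 : Dfn (n := 4) (fun V E ν => adjS E (R V E) (ν 1) (ν 0) ∧
      EqvGen (stepR E (R V E) (ν 2)) (ν 0) (ν 3)) := ((dfn_adjS hR).at 1 0).and h2
  exact (((dfn_adjS hR).at 1 0).and h3.ex).congr fun V E ν => Iff.rfl

theorem dfn_next {R : BQry} (hR : Dfn2 R) :
    Dfn (n := 3) (fun V E ν => nextS E (R V E) (ν 2) (ν 0) (ν 1)) := by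
  have h1 : Dfn (n := 4) (fun V E ν => KK E (R V E) (ν 3) (ν 1) (ν 0)) :=
    ((dfn_KK hR).ren ![0, 1, 3]).congr fun V E ν => Iff.rfl
  have h2 : Dfn (n := 4) (fun V E ν => KK E (R V E) (ν 3) (ν 1) (ν 0) →
      arcS E (R V E) (ν 1) (ν 0) → (R V E (ν 2) (ν 0) ∨ arcS E (R V E) (ν 2) (ν 0))) :=
    h1.imp (((dfn_arcS hR).at 1 0).imp ((hR.at 2 0).or ((dfn_arcS hR).at 2 0)))
  have h3 : Dfn (n := 3) (fun V E ν => KK E (R V E) (ν 2) (ν 0) (ν 1)) :=
    ((dfn_KK hR).ren ![1, 0, 2]).congr fun V E ν => Iff.rfl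
  exact (((dfn_inN hR).at 0 2).neg.and (h3.and (((dfn_arcS hR).at 0 1).and h2.all))).congr
    fun V E ν => Iff.rfl

theorem dfn_nextF {R : BQry} (hR : Dfn2 R) :
    Dfn (n := 3) (fun V E ν => nextF E (R V E) (ν 2) (ν 0) (ν 1)) := by
  -- variables: `x', v', v, x, t`
  have h1 : Dfn (n := 5) (fun V E ν => nextS E (R V E) (ν 4) (ν 1) (ν 0)) :=
    ((dfn_next hR).ren ![1, 0, 4]).congr fun V E ν => Iff.rfl
  have h2 : Dfn (n := 5) (fun V E ν => nextS E (R V E) (ν 4) (ν 1) (ν 0) →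
      R V E (ν 3) (ν 0)) := h1.imp (hR.at 3 0)
  have h3 : Dfn (n := 4) (fun V E ν => R V E (ν 1) (ν 0) → ∀ x', nextS E (R V E) (ν 3) (ν 0) x' →
      R V E (ν 2) x') := (hR.at 1 0).imp (h2.all.congr fun V E ν => Iff.rfl)
  exact ((dfn_next hR).and h3.all).congr fun V E ν => Iff.rfl

theorem dfn_reachF {R : BQry} (hR : Dfn2 R) : Dfn2 (fun V E => reachF E (R V E)) := by
  have h1 : Dfn (n := 5) (fun V E ν => R V E (ν 0) (ν 1) ∨
      nextF E (R V E) (ν 4) (ν 0) (ν 1)) :=
    (hR.at 0 1).or (((dfn_nextF hR).ren ![0, 1, 4]).congr fun V E ν => Iff.rfl)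
  have h2 : Dfn (n := 3) (fun V E ν => EqvGen (fun a b => R V E a b ∨
      nextF E (R V E) (ν 2) a b) (ν 1) (ν 0)) := (h1.stc 1 0).congr fun V E ν => Iff.rfl
  exact (h2.and ((hR.at 0 2).or ((dfn_arcS hR).at 0 2))).ex.congr fun V E ν => Iff.rfl

/-- If the strong components are definable, then so is reachability. -/
theorem dfn_reach_fm (σ : Fm 2) : ∃ φ : Fm 2, ∀ (V : Type) [Finite V]
    (E : V → V → Prop), IsChordal (under (condE E)) →
    (∀ a b, σ.Holds E ![a, b] ↔ (ReflTransGen E a b ∧ ReflTransGen E b a)) →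
    ∀ s d : V, φ.Holds E ![s, d] ↔ ReflTransGen E s d := by
  have h : Dfn2 (fun V E a b => σ.Holds E ![a, b]) := by
    refine ⟨σ, fun V E ν => ?_⟩
    change σ.Holds E ν ↔ σ.Holds E ![ν 0, ν 1]
    have : ![ν 0, ν 1] = ν := by
      funext i
      fin_cases i <;> rfl
    rw [this]
  obtain ⟨φ, hφ⟩ := dfn_reachF h
  refine ⟨φ, fun V _ E hG hS s d => ?_⟩
  rw [hφ]
  exact ⟨reachF_sound (S_equiv hS) (fun a b => S_reach hS) s d, reachF_complete hS hG s d⟩

/-- A few rounds of merging define the strong components without many induced paths. -/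
theorem scc_rnd {V : Type} {E : V → V → Prop} {t : ℕ} (ht : 1 ≤ t)
    (hno : ∀ a, ¬ HasP E {x | ReflTransGen E a x ∧ ReflTransGen E x a} t) (a b : V) :
    rnd (6 * t + 1) E (t + 1) a b ↔ (ReflTransGen E a b ∧ ReflTransGen E b a) := by
  refine ⟨rnd_sound _ E _ a b, fun ⟨hab, hba⟩ => ?_⟩
  let A : Set V := {x | ReflTransGen E a x ∧ ReflTransGen E x a}
  let E' : V → V → Prop := fun x y => E x y ∧ x ∈ A ∧ y ∈ A
  -- walks between members of `A` stay in `A`
  have key : ∀ x y, x ∈ A → y ∈ A → ReflTransGen E x y → ReflTransGen E' x y := by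
    intro x y hx hy h
    have key2 : ∀ p, ReflTransGen E x p → ReflTransGen E p y → ReflTransGen E' x p := by
      intro p hp
      induction hp with
      | refl => exact fun _ => .refl
      | @tail p q hp hpq ih =>
        intro hq
        refine (ih (hq.head hpq)).tail ⟨hpq, ⟨hx.1.trans hp, ?_⟩, ⟨hx.1.trans (hp.tail hpq), ?_⟩⟩
        · exact (hq.head hpq).trans hy.2
        · exact hq.trans hy.2
    exact key2 y h .refl
  have hno' : ¬ HasP E' Set.univ t := fun h => hno a h.of_restrict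
  have harc : ∀ x y, E' x y → rnd (6 * t + 1) E (t + 1) x y := by
    intro x y hxy
    have h1 : ReflTransGen E' y x :=
      key y x hxy.2.2 hxy.2.1 (hxy.2.2.2.trans hxy.2.1.1)
    have h2 := (reach_iff ht hno' y x).2 h1
    have h3 : Tle E (rnd (6 * t + 1) E t) (6 * t) y x :=
      Tle_mono (fun _ _ h => h.1) (rnd_mono_E _ (fun _ _ h => h.1) t) _ _ _ h2
    exact rnd_arc _ E t hxy.1 (Tle_mono_n (by omega) h3)
  have hpath : ∀ y, ReflTransGen E' a y → rnd (6 * t + 1) E (t + 1) a y := by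
    intro y h
    induction h with
    | refl => exact (rnd_equiv _ E _).refl a
    | tail _ h2 ih => exact (rnd_equiv _ E _).trans ih (harc _ _ h2)
  exact hpath b (key a b ⟨.refl, .refl⟩ ⟨hab, hba⟩ hab)

/-! ### Deleting vertices -/

/-- The digraph without the arcs at the vertices in `X`. -/
def del {V : Type} (E : V → V → Prop) (X : Set V) : V → V → Prop :=
  fun a b => E a b ∧ a ∉ X ∧ b ∉ X

/-- The formula for the digraph without the last variable. -/
def delF : {n : ℕ} → Fm n → Fm (n + 1)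
  | _, .eq i j => .eq i.castSucc j.castSucc
  | n, .edge i j => .and (.edge i.castSucc j.castSucc)
      (.and (.neg (.eq i.castSucc (Fin.last n))) (.neg (.eq j.castSucc (Fin.last n))))
  | _, .neg φ => .neg (delF φ)
  | _, .and φ ψ => .and (delF φ) (delF ψ)
  | _, .ex φ => .ex (delF φ)
  | _, .stc φ i j => .stc (delF φ) i.castSucc j.castSucc

theorem holds_delF {V : Type} (E : V → V → Prop) (x : V) {n : ℕ} (φ : Fm n) :
    ∀ ν : Fin n → V, (delF φ).Holds E (Fin.snoc (α := fun _ => V) ν x) ↔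
      φ.Holds (del E {x}) ν := by
  induction φ with
  | eq i j => intro ν; simp [delF, Fm.Holds]
  | edge i j => intro ν; simp [delF, Fm.Holds, del]
  | neg φ ih => intro ν; simp only [delF, Fm.Holds, ih]
  | and φ ψ ih1 ih2 => intro ν; simp only [delF, Fm.Holds, ih1, ih2]
  | ex φ ih =>
    intro ν
    simp only [delF, Fm.Holds]
    refine exists_congr fun a => ?_
    rw [← ih, Fin.cons_snoc_eq_snoc_cons]
  | stc φ i j ih =>
    intro ν
    simp only [delF, Fm.Holds, Fin.snoc_castSucc]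
    have : (fun a b : V => (delF φ).Holds E
        (Fin.cons a (Fin.cons b (Fin.snoc (α := fun _ => V) ν x)))) =
        fun a b => φ.Holds (del E {x}) (Fin.cons a (Fin.cons b ν)) := by
      funext a b
      rw [← propext (ih _), Fin.cons_snoc_eq_snoc_cons, Fin.cons_snoc_eq_snoc_cons]
    rw [this]

theorem dfn_del (φ : Fm 2) :
    Dfn (n := 3) (fun V E ν => φ.Holds (del E {ν 2}) ![ν 0, ν 1]) := by
  refine ⟨delF φ, fun V E ν => ?_⟩
  change (delF φ).Holds E ν ↔ φ.Holds (del E {ν 2}) ![ν 0, ν 1]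
  rw [← holds_delF]
  have : (Fin.snoc (α := fun _ => V) ![ν 0, ν 1] (ν 2) : Fin 3 → V) = ν := by
    funext i
    fin_cases i <;> rfl
  rw [this]

section

variable {V : Type} {E : V → V → Prop} {x : V}

theorem reach_to (a : V) (h : ReflTransGen E a x) :
    a = x ∨ ∃ y, ReflTransGen (del E {x}) a y ∧ E y x := by
  induction h using ReflTransGen.head_induction_on with
  | refl => exact Or.inl rfl
  | @head a q h1 h2 ih =>
    by_cases ha : a = x
    · exact Or.inl ha
    · right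
      rcases ih with ih | ⟨y, h3, h4⟩
      · exact ⟨a, .refl, by rw [← ih]; exact h1⟩
      · by_cases hq : q = x
        · exact ⟨a, .refl, by rw [← hq]; exact h1⟩
        · exact ⟨y, h3.head ⟨h1, ha, hq⟩, h4⟩

theorem reach_from (b : V) (h : ReflTransGen E x b) :
    b = x ∨ ∃ y, E x y ∧ ReflTransGen (del E {x}) y b := by
  induction h with
  | refl => exact Or.inl rfl
  | @tail p q h1 h2 ih =>
    by_cases hq : q = x
    · exact Or.inl hq
    · right
      rcases ih with ih | ⟨y, h3, h4⟩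
      · exact ⟨q, by rw [← ih]; exact h2, .refl⟩
      · by_cases hp : p = x
        · exact ⟨q, by rw [← hp]; exact h2, .refl⟩
        · exact ⟨y, h3, h4.tail ⟨h2, hp, hq⟩⟩

theorem reach_cases (a b : V) (h : ReflTransGen E a b) :
    ReflTransGen (del E {x}) a b ∨ (ReflTransGen E a x ∧ ReflTransGen E x b) := by
  induction h with
  | refl => exact Or.inl .refl
  | @tail p q h1 h2 ih =>
    rcases ih with ih | ih
    · by_cases hp : p = x
      · subst hp
        exact Or.inr ⟨h1, .single h2⟩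
      · by_cases hq : q = x
        · subst hq
          exact Or.inr ⟨h1.tail h2, .refl⟩
        · exact Or.inl (ih.tail ⟨h2, hp, hq⟩)
    · exact Or.inr ⟨ih.1, ih.2.tail h2⟩

theorem del_reach {X : Set V} {a b : V} (h : ReflTransGen (del E X) a b) :
    ReflTransGen E a b := h.lift id fun _ _ h => h.1

end

/-- A formula that never gives a wrong positive answer. -/
def Sound (φ : Fm 2) : Prop :=
  ∀ (V : Type) (E : V → V → Prop) (s d : V), φ.Holds E ![s, d] → ReflTransGen E s d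

/-- One more deleted vertex. -/
theorem add_vertex (φ : Fm 2) (hφ : Sound φ) : ∃ ψ : Fm 2, Sound ψ ∧
    ∀ (V : Type) (E : V → V → Prop),
      ((∀ s d, ReflTransGen E s d → φ.Holds E ![s, d]) ∨
        ∃ x, ∀ s d, ReflTransGen (del E {x}) s d → φ.Holds (del E {x}) ![s, d]) →
      ∀ s d, ReflTransGen E s d → ψ.Holds E ![s, d] := by
  have hq := dfn_del φ
  -- variables `x, s, d`
  have h1 : Dfn (n := 3) (fun V E ν => φ.Holds (del E {ν 0}) ![ν 1, ν 2]) :=
    (hq.ren ![1, 2, 0]).congr fun V E ν => Iff.rfl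
  -- variables `y, x, s, d`
  have h2 : Dfn (n := 4) (fun V E ν => φ.Holds (del E {ν 1}) ![ν 2, ν 0] ∧ E (ν 0) (ν 1)) :=
    ((hq.ren ![2, 0, 1]).congr fun V E ν => Iff.rfl).and (Dfn.edge 0 1)
  have h3 : Dfn (n := 4) (fun V E ν => E (ν 1) (ν 0) ∧ φ.Holds (del E {ν 1}) ![ν 0, ν 3]) :=
    (Dfn.edge 1 0).and ((hq.ren ![0, 3, 1]).congr fun V E ν => Iff.rfl)
  have h4 : Dfn (n := 3) (fun V E ν => φ.Holds (del E {ν 0}) ![ν 1, ν 2] ∨
      ((ν 1 = ν 0 ∨ ∃ y, φ.Holds (del E {ν 0}) ![ν 1, y] ∧ E y (ν 0)) ∧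
        (ν 2 = ν 0 ∨ ∃ y, E (ν 0) y ∧ φ.Holds (del E {ν 0}) ![y, ν 2]))) :=
    h1.or (((Dfn.eq 1 0).or (h2.ex.congr fun V E ν => Iff.rfl)).and
      ((Dfn.eq 2 0).or (h3.ex.congr fun V E ν => Iff.rfl)))
  have h5 : Dfn2 (fun V E s d => φ.Holds E ![s, d]) := by
    refine ⟨φ, fun V E ν => ?_⟩
    change φ.Holds E ν ↔ φ.Holds E ![ν 0, ν 1]
    have : ![ν 0, ν 1] = ν := by
      funext i
      fin_cases i <;> rfl
    rw [this]
  have h6 : Dfn2 (fun V E s d => φ.Holds E ![s, d] ∨ ∃ x, (φ.Holds (del E {x}) ![s, d] ∨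
      ((s = x ∨ ∃ y, φ.Holds (del E {x}) ![s, y] ∧ E y x) ∧
        (d = x ∨ ∃ y, E x y ∧ φ.Holds (del E {x}) ![y, d])))) :=
    h5.or (h4.ex.congr fun V E ν => Iff.rfl)
  obtain ⟨ψ, hψ⟩ := h6
  have hψ' : ∀ (V : Type) (E : V → V → Prop) (s d : V), ψ.Holds E ![s, d] ↔
      (φ.Holds E ![s, d] ∨ ∃ x, (φ.Holds (del E {x}) ![s, d] ∨
      ((s = x ∨ ∃ y, φ.Holds (del E {x}) ![s, y] ∧ E y x) ∧
        (d = x ∨ ∃ y, E x y ∧ φ.Holds (del E {x}) ![y, d])))) := fun V E s d => hψ V E ![s, d]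
  refine ⟨ψ, fun V E s d h => ?_, fun V E h s d hr => ?_⟩
  · rw [hψ'] at h
    rcases h with h | ⟨x, h | ⟨h1, h2⟩⟩
    · exact hφ _ _ _ _ h
    · exact del_reach (hφ _ _ _ _ h)
    · have h3 : ReflTransGen E s x := by
        rcases h1 with rfl | ⟨y, h3, h4⟩
        · exact .refl
        · exact (del_reach (hφ _ _ _ _ h3)).tail h4
      have h4 : ReflTransGen E x d := by
        rcases h2 with rfl | ⟨y, h4, h5⟩
        · exact .refl
        · exact (del_reach (hφ _ _ _ _ h5)).head h4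
      exact h3.trans h4
  · rw [hψ']
    rcases h with h | ⟨x, h⟩
    · exact Or.inl (h s d hr)
    · right
      refine ⟨x, ?_⟩
      rcases reach_cases (x := x) s d hr with h1 | ⟨h1, h2⟩
      · exact Or.inl (h s d h1)
      · right
        refine ⟨?_, ?_⟩
        · rcases reach_to s h1 with h3 | ⟨y, h3, h4⟩
          · exact Or.inl h3
          · exact Or.inr ⟨y, h s y h3, h4⟩
        · rcases reach_from d h2 with h3 | ⟨y, h3, h4⟩
          · exact Or.inl h3
          · exact Or.inr ⟨y, h3, h y d h4⟩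

/-- The class for which the formula of the main theorem is complete. -/
def Base (t : ℕ) (V : Type) (E : V → V → Prop) : Prop :=
  IsChordal (under (condE E)) ∧ ∀ e : tP4 t ↪g under E, ∃ x y, ¬ ReflTransGen E (e x) (e y)

theorem base (t : ℕ) : ∃ φ : Fm 2, Sound φ ∧ ∀ (V : Type) [Finite V] (E : V → V → Prop),
    Base t V E → ∀ s d, ReflTransGen E s d → φ.Holds E ![s, d] := by
  rcases Nat.eq_zero_or_pos t with h0 | h0
  · subst h0
    refine ⟨Fm.eq 0 1, fun V E s d h => ?_, fun V _ E h => ?_⟩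
    · have : s = d := h
      rw [this]
    · obtain ⟨x, -⟩ := h.2 ⟨⟨fun x => x.1.elim0, fun x => x.1.elim0⟩, fun {x} => x.1.elim0⟩
      exact x.1.elim0
  · obtain ⟨φ, hφ⟩ := dfn_reachF (dfn_rnd (6 * t + 1) (t + 1))
    have hφ' : ∀ (V : Type) (E : V → V → Prop) (s d : V), φ.Holds E ![s, d] ↔
        reachF E (rnd (6 * t + 1) E (t + 1)) s d := fun V E s d => hφ V E ![s, d]
    refine ⟨φ, fun V E s d h => ?_, fun V _ E h s d hr => ?_⟩
    · rw [hφ'] at h
      exact reachF_sound (rnd_equiv _ E _) (fun a b h => (rnd_sound _ E _ a b h).1) s d h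
    · rw [hφ']
      refine reachF_complete (scc_rnd h0 fun a hP => ?_) h.1 s d hr
      obtain ⟨f, hf, hmem, hadj⟩ := hP
      obtain ⟨x, y, hxy⟩ := h.2 ⟨⟨f, hf⟩, fun {x y} => hadj x y⟩
      exact hxy ((hmem x).2.trans (hmem y).1)

theorem del_del {V : Type} (E : V → V → Prop) (x : V) (X : Set V) :
    del (del E {x}) X = del E (insert x X) := by
  funext a b
  simp only [del, Set.mem_singleton_iff, Set.mem_insert_iff, eq_iff_iff]
  tauto

theorem main (t k : ℕ) : ∃ φ : Fm 2, Sound φ ∧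
    ∀ (V : Type) [Finite V] (E : V → V → Prop) (X : Set V), X.ncard ≤ k → Base t V (del E X) →
      ∀ s d, ReflTransGen E s d → φ.Holds E ![s, d] := by
  induction k with
  | zero =>
    obtain ⟨φ, h1, h2⟩ := base t
    refine ⟨φ, h1, fun V _ E X hX hB => ?_⟩
    have : X = ∅ := (Set.ncard_eq_zero (Set.toFinite X)).1 (Nat.le_zero.1 hX)
    subst this
    have h3 : del E ∅ = E := by
      funext a b
      simp [del]
    rw [h3] at hB
    exact h2 V E hB
  | succ k ih =>
    obtain ⟨φ, h1, h2⟩ := ih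
    obtain ⟨ψ, h3, h4⟩ := add_vertex φ h1
    refine ⟨ψ, h3, fun V _ E X hX hB => h4 V E ?_⟩
    rcases Set.eq_empty_or_nonempty X with h0 | ⟨x, hx⟩
    · left
      exact h2 V E X (by rw [h0]; simp) hB
    · right
      refine ⟨x, h2 V (del E {x}) (X \ {x}) ?_ ?_⟩
      · have := Set.ncard_sdiff_singleton_lt_of_mem hx (Set.toFinite X)
        omega
      · rw [del_del, Set.insert_sdiff_singleton, Set.insert_eq_of_mem hx]
        exact hB

end Pool.Agent.H255R3.CR
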