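import Pool.Agent.H255R3.STC.Chordal

/-!
# Chordal graphs have no four-cycle of connected sets
-/

set_option autoImplicit false

open Classical Relation

namespace Pool.Agent.H255R3.CR

open Pool.Agent.H255R3.STC

variable {V : Type}

/-- A set is connected. -/
def Conn (G : SimpleGraph V) (X : Set V) : Prop :=
  ∀ a ∈ X, ∀ b ∈ X, ReflTransGen (fun x y => G.Adj x y ∧ x ∈ X ∧ y ∈ X) a b

/-- Two sets are adjacent. -/
def Nbr (G : SimpleGraph V) (X Y : Set V) : Prop := ∃ x ∈ X, ∃ y ∈ Y, G.Adj x y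

theorem Nbr.symm {G : SimpleGraph V} {X Y : Set V} (h : Nbr G X Y) : Nbr G Y X := by
  obtain ⟨x, hx, y, hy, h⟩ := h
  exact ⟨y, hy, x, hx, h.symm⟩

/-- `z` is simplicial in `G` restricted to `s`. -/
def Simp (G : SimpleGraph V) (s : Set V) (z : V) : Prop :=
  z ∈ s ∧ ∀ a ∈ s, ∀ b ∈ s, G.Adj z a → G.Adj z b → a ≠ b → G.Adj a b

/-- Removing a simplicial vertex from a connected set. -/
theorem conn_erase {G : SimpleGraph V} {s X : Set V} {z : V} (hz : Simp G s z) (hX : X ⊆ s)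
    (h : Conn G X) : Conn G (X \ {z}) := by
  intro a ha b hb
  have key : ∀ b, ReflTransGen (fun x y => G.Adj x y ∧ x ∈ X ∧ y ∈ X) a b → b ∈ X →
      (b ≠ z → ReflTransGen (fun x y => G.Adj x y ∧ x ∈ X \ {z} ∧ y ∈ X \ {z}) a b) ∧
      (b = z → ∀ q ∈ X \ {z}, G.Adj z q →
        ReflTransGen (fun x y => G.Adj x y ∧ x ∈ X \ {z} ∧ y ∈ X \ {z}) a q) := by
    intro b h
    induction h with
    | refl =>
      intro _
      exact ⟨fun _ => .refl, fun h => absurd h ha.2⟩
    | @tail b c hab hbc ih =>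
      intro hc
      obtain ⟨ih1, ih2⟩ := ih hbc.2.1
      refine ⟨fun hcz => ?_, fun hcz q hq hzq => ?_⟩
      · by_cases hbz : b = z
        · subst hbz
          exact ih2 rfl c ⟨hc, hcz⟩ hbc.1
        · exact (ih1 hbz).tail ⟨hbc.1, ⟨hbc.2.1, hbz⟩, ⟨hc, hcz⟩⟩
      · subst hcz
        have hbz : b ≠ c := hbc.1.ne
        by_cases hbq : b = q
        · subst hbq
          exact ih1 hbz
        · have h1 : G.Adj b q := hz.2 b (hX hbc.2.1) q (hX hq.1) hbc.1.symm hzq hbq
          exact (ih1 hbz).tail ⟨h1, ⟨hbc.2.1, hbz⟩, hq⟩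
  exact (key b (h a ha.1 b hb.1) hb.1).1 hb.2

theorem nbr_erase {G : SimpleGraph V} {s X A : Set V} {z : V} (hz : Simp G s z) (hX : X ⊆ s)
    (hA : A ⊆ s) (hXc : Conn G X) (hne : ∃ x ∈ X, x ≠ z) (hd : Disjoint X A) (h : Nbr G X A) :
    Nbr G (X \ {z}) A := by
  obtain ⟨x, hx, a, ha, hxa⟩ := h
  by_cases hxz : x = z
  · subst hxz
    obtain ⟨y, hy, hyx⟩ := hne
    rcases ReflTransGen.cases_head (hXc x hx y hy) with h1 | ⟨c, hc, -⟩
    · exact absurd h1.symm hyx
    · refine ⟨c, ⟨hc.2.2, hc.1.ne'⟩, a, ha, ?_⟩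
      exact hz.2 c (hX hc.2.2) a (hA ha) hc.1 hxa (fun h => by
        subst h
        exact Set.disjoint_left.1 hd hc.2.2 ha)
  · exact ⟨x, ⟨hx, hxz⟩, a, ha, hxa⟩

theorem exists_simp [Fintype V] {G : SimpleGraph V} (hG : IsChordal G) (s : Set V) {x y : V} (hx : x ∈ s)
    (hy : y ∈ s) (hxy : x ≠ y) (h : ¬ G.Adj x y) : ∃ z, Simp G s z := by
  obtain ⟨z, hz, -, -, h3⟩ := exists_simplicial hG s.toFinset.card s.toFinset le_rfl x (by simpa using hx) y
    (by simpa using hy) hxy.symm h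
  exact ⟨z, by simpa using hz, fun a ha b hb => h3 a (by simpa using ha) b (by simpa using hb)⟩

/-- In a chordal graph there are no four disjoint connected sets forming an induced four-cycle. -/
theorem noC4 [Fintype V] {G : SimpleGraph V} (hG : IsChordal G) : ∀ (n : ℕ) (s X Y A B : Set V),
    s.ncard ≤ n → X ⊆ s → Y ⊆ s → A ⊆ s → B ⊆ s →
    Disjoint X Y → Disjoint X A → Disjoint X B → Disjoint Y A → Disjoint Y B → Disjoint A B →
    Conn G X → Conn G Y → Conn G A → Conn G B →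
    Nbr G X A → Nbr G X B → Nbr G Y A → Nbr G Y B → Nbr G X Y ∨ Nbr G A B := by
  intro n
  induction n with
  | zero =>
    intro s X Y A B hs hX _ _ _ _ _ _ _ _ _ _ _ _ _ h _ _ _
    obtain ⟨x, hx, -⟩ := h
    have h0 : s = ∅ := (Set.ncard_eq_zero (Set.toFinite s)).1 (Nat.le_zero.1 hs)
    rw [h0] at hX
    exact absurd (hX hx) (by simp)
  | succ n ih =>
    -- the case where the simplicial vertex lies in the first set
    have main : ∀ (s X Y A B : Set V) (z : V), Simp G s z → z ∈ X →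
        s.ncard ≤ n + 1 → X ⊆ s → Y ⊆ s → A ⊆ s → B ⊆ s →
        Disjoint X Y → Disjoint X A → Disjoint X B → Disjoint Y A → Disjoint Y B → Disjoint A B →
        Conn G X → Conn G Y → Conn G A → Conn G B →
        Nbr G X A → Nbr G X B → Nbr G Y A → Nbr G Y B → Nbr G X Y ∨ Nbr G A B := by
      intro s X Y A B z hz hzX hs hX hY hA hB hXY hXA hXB hYA hYB hAB cX cY cA cB nXA nXB nYA nYB
      by_cases hne : ∃ x ∈ X, x ≠ z
      · have hcard : (s \ {z}).ncard ≤ n := by
          have := Set.ncard_sdiff_singleton_lt_of_mem hz.1 (Set.toFinite s)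
          omega
        have hzn : ∀ {Z : Set V}, Disjoint X Z → z ∉ Z := fun hd => Set.disjoint_left.1 hd hzX
        have hsub : ∀ {Z : Set V}, Z ⊆ s → Disjoint X Z → Z ⊆ s \ {z} := fun h hd x hx =>
          ⟨h hx, fun h' => hzn hd (by rw [← h']; exact hx)⟩
        have hd : ∀ {Z : Set V}, Disjoint X Z → Disjoint (X \ {z}) Z := fun h =>
          h.mono_left Set.sdiff_subset
        rcases ih (s \ {z}) (X \ {z}) Y A B hcard (Set.sdiff_subset_sdiff_left hX) (hsub hY hXY)
          (hsub hA hXA) (hsub hB hXB) (hd hXY) (hd hXA) (hd hXB) hYA hYB hAB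
          (conn_erase hz hX cX) cY cA cB (nbr_erase hz hX hA cX hne hXA nXA)
          (nbr_erase hz hX hB cX hne hXB nXB) nYA nYB with h | h
        · left
          obtain ⟨x, hx, y, hy, h⟩ := h
          exact ⟨x, hx.1, y, hy, h⟩
        · exact Or.inr h
      · push Not at hne
        right
        obtain ⟨x, hx, a, ha, hxa⟩ := nXA
        obtain ⟨x', hx', b, hb, hxb⟩ := nXB
        rw [hne x hx] at hxa
        rw [hne x' hx'] at hxb
        exact ⟨a, ha, b, hb, hz.2 a (hA ha) b (hB hb) hxa hxb (fun h => by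
          subst h
          exact Set.disjoint_left.1 hAB ha hb)⟩
    intro s X Y A B hs hX hY hA hB hXY hXA hXB hYA hYB hAB cX cY cA cB nXA nXB nYA nYB
    obtain ⟨x, hx, -⟩ := id nXA
    obtain ⟨y, hy, -⟩ := id nYA
    have hxy : x ≠ y := fun h => by
      subst h
      exact Set.disjoint_left.1 hXY hx hy
    by_cases hadj : G.Adj x y
    · exact Or.inl ⟨x, hx, y, hy, hadj⟩
    obtain ⟨z, hz⟩ := exists_simp hG s (hX hx) (hY hy) hxy hadj
    by_cases h1 : z ∈ X
    · exact main s X Y A B z hz h1 hs hX hY hA hB hXY hXA hXB hYA hYB hAB cX cY cA cB nXA nXB nYA nYB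
    by_cases h2 : z ∈ Y
    · rcases main s Y X A B z hz h2 hs hY hX hA hB hXY.symm hYA hYB hXA hXB hAB cY cX cA cB
        nYA nYB nXA nXB with h | h
      · exact Or.inl h.symm
      · exact Or.inr h
    by_cases h3 : z ∈ A
    · rcases main s A B X Y z hz h3 hs hA hB hX hY hAB hXA.symm hYA.symm hXB.symm hYB.symm hXY
        cA cB cX cY nXA.symm nYA.symm nXB.symm nYB.symm with h | h
      · exact Or.inr h
      · exact Or.inl h
    by_cases h4 : z ∈ B
    · rcases main s B A X Y z hz h4 hs hB hA hX hY hAB.symm hXB.symm hYB.symm hXA.symm hYA.symm hXY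
        cB cA cX cY nXB.symm nYB.symm nXA.symm nYA.symm with h | h
      · exact Or.inr h.symm
      · exact Or.inl h
    have hcard : (s \ {z}).ncard ≤ n := by
      have := Set.ncard_sdiff_singleton_lt_of_mem hz.1 (Set.toFinite s)
      omega
    have hsub : ∀ {Z : Set V}, Z ⊆ s → z ∉ Z → Z ⊆ s \ {z} := fun h hd x hx =>
      ⟨h hx, fun h' => hd (by rw [← h']; exact hx)⟩
    exact ih (s \ {z}) X Y A B hcard (hsub hX h1) (hsub hY h2) (hsub hA h3) (hsub hB h4)
      hXY hXA hXB hYA hYB hAB cX cY cA cB nXA nXB nYA nYB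

end Pool.Agent.H255R3.CR
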