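import Pool.Agent.H255R3.CR.NoC4
import Pool.Agent.H534R2.HFree

/-!
# Reachability in digraphs whose condensation has a chordal underlying graph
-/

set_option autoImplicit false

open Classical Relation

namespace Pool.Agent.H255R3.CR

open Pool.Agent.H255R3.STC Pool.Agent.H534R2

/-- Mutual reachability. -/
def scc {V : Type} (E : V → V → Prop) : Setoid V where
  r a b := ReflTransGen E a b ∧ ReflTransGen E b a
  iseqv := ⟨fun _ => ⟨.refl, .refl⟩, fun h => h.symm,
    fun h h' => ⟨h.1.trans h'.1, h'.2.trans h.2⟩⟩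

/-- The condensation of a digraph: its vertices are the strong components. -/
def condE {V : Type} (E : V → V → Prop) (A B : Quotient (scc E)) : Prop :=
  ∃ a b, Quotient.mk (scc E) a = A ∧ Quotient.mk (scc E) b = B ∧ E a b

section core

variable {V : Type}

/-- An arc from the class of `a` to the class of `b`. -/
def arcS (E S : V → V → Prop) (a b : V) : Prop := ∃ a', S a a' ∧ ∃ b', E a' b' ∧ S b' b

/-- Different adjacent classes. -/
def adjS (E S : V → V → Prop) (a b : V) : Prop := ¬ S a b ∧ (arcS E S a b ∨ arcS E S b a)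

/-- The closed neighbourhood. -/
def inN (E S : V → V → Prop) (v x : V) : Prop := S v x ∨ adjS E S v x

/-- A step outside of the closed neighbourhood of `v`. -/
def stepR (E S : V → V → Prop) (v a b : V) : Prop :=
  (S a b ∨ adjS E S a b) ∧ ¬ inN E S v a ∧ ¬ inN E S v b

/-- `x` is adjacent to `v` and to the component of `t` outside of the neighbourhood of `v`. -/
def KK (E S : V → V → Prop) (t v x : V) : Prop :=
  adjS E S v x ∧ ∃ c, adjS E S x c ∧ EqvGen (stepR E S v) c t

/-- A candidate for the next vertex on the canonical path from `v` to `t`. -/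
def nextS (E S : V → V → Prop) (t v x : V) : Prop :=
  ¬ inN E S v t ∧ KK E S t v x ∧ arcS E S v x ∧
    ∀ y, KK E S t v y → arcS E S v y → S x y ∨ arcS E S x y

/-- The next vertex, if all candidates are equivalent. -/
def nextF (E S : V → V → Prop) (t v x : V) : Prop :=
  nextS E S t v x ∧ ∀ v', S v v' → ∀ x', nextS E S t v' x' → S x x'

/-- The reachability query. -/
def reachF (E S : V → V → Prop) (s t : V) : Prop :=
  ∃ w, EqvGen (fun a b => S a b ∨ nextF E S t a b) s w ∧ (S w t ∨ arcS E S w t)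

variable {E S : V → V → Prop}

section sound

variable (hE : Equivalence S)

include hE

theorem arcS_of {a b : V} (h : E a b) : arcS E S a b := ⟨a, hE.refl a, b, h, hE.refl b⟩

theorem arcS_left {a b c : V} (h : S a b) (h' : arcS E S b c) : arcS E S a c := by
  obtain ⟨a', h1, b', h2, h3⟩ := h'
  exact ⟨a', hE.trans h h1, b', h2, h3⟩

theorem arcS_right {a b c : V} (h : arcS E S a b) (h' : S b c) : arcS E S a c := by
  obtain ⟨a', h1, b', h2, h3⟩ := h
  exact ⟨a', h1, b', h2, hE.trans h3 h'⟩

theorem adjS_symm {a b : V} (h : adjS E S a b) : adjS E S b a :=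
  ⟨fun h' => h.1 (hE.symm h'), h.2.symm⟩

theorem adjS_right {a b c : V} (h : adjS E S a b) (h' : S b c) : adjS E S a c :=
  ⟨fun h1 => h.1 (hE.trans h1 (hE.symm h')), h.2.imp (fun h2 => arcS_right hE h2 h')
    (fun h2 => arcS_left hE (hE.symm h') h2)⟩

theorem adjS_left {a b c : V} (h : adjS E S b c) (h' : S a b) : adjS E S a c :=
  adjS_symm hE (adjS_right hE (adjS_symm hE h) (hE.symm h'))

theorem inN_right {v a b : V} (h : inN E S v a) (h' : S a b) : inN E S v b :=
  h.imp (fun h1 => hE.trans h1 h') (fun h1 => adjS_right hE h1 h')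

theorem inN_left {v a b : V} (h : inN E S b v) (h' : S a b) : inN E S a v :=
  h.imp (fun h1 => hE.trans h' h1) (fun h1 => adjS_left hE h1 h')

omit hE in
theorem inN_of {w t : V} (h : S w t ∨ arcS E S w t) : inN E S w t := by
  by_cases h1 : S w t
  · exact Or.inl h1
  · exact Or.inr ⟨h1, Or.inl (h.resolve_left h1)⟩

/-- The query never gives a wrong positive answer. -/
theorem reachF_sound (hR : ∀ a b, S a b → ReflTransGen E a b) (s t : V)
    (h : reachF E S s t) : ReflTransGen E s t := by
  have harc : ∀ {a b}, arcS E S a b → ReflTransGen E a b := by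
    rintro a b ⟨a', h1, b', h2, h3⟩
    exact ((hR _ _ h1).tail h2).trans (hR _ _ h3)
  have hlead : ∀ a w, ReflTransGen (fun a b => S a b ∨ nextF E S t a b) a w →
      ReflTransGen E a w := by
    intro a w h
    induction h with
    | refl => exact .refl
    | tail _ h2 ih =>
      rcases h2 with h2 | h2
      · exact ih.trans (hR _ _ h2)
      · exact ih.trans (harc h2.1.2.2.1)
  have key : ∀ {w}, (S w t ∨ arcS E S w t) → ∀ a',
      ReflTransGen (fun a b => S a b ∨ nextF E S t a b) a' w → ∀ a b, S a a' →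
      nextF E S t a b → ∃ w, ReflTransGen (fun a b => S a b ∨ nextF E S t a b) b w ∧
        (S w t ∨ arcS E S w t) := by
    intro w hw a' h
    induction h using ReflTransGen.head_induction_on with
    | refl =>
      intro a b hab hn
      exact absurd (inN_left hE (inN_of hw) hab) hn.1.1
    | @head a' a'' h1 h2 ih =>
      intro a b hab hn
      rcases h1 with h1 | h1
      · exact ih a b (hE.trans hab h1) hn
      · exact ⟨w, h2.head (Or.inl (hn.2 a' hab a'' h1.1)), hw⟩
  have key2 : ∀ a b, EqvGen (fun a b => S a b ∨ nextF E S t a b) a b →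
      ((∃ w, ReflTransGen (fun a b => S a b ∨ nextF E S t a b) a w ∧ (S w t ∨ arcS E S w t)) ↔
      ∃ w, ReflTransGen (fun a b => S a b ∨ nextF E S t a b) b w ∧ (S w t ∨ arcS E S w t)) := by
    intro a b h
    induction h with
    | rel a b h =>
      rcases h with h | h
      · exact ⟨fun ⟨w, h1, h2⟩ => ⟨w, h1.head (Or.inl (hE.symm h)), h2⟩,
          fun ⟨w, h1, h2⟩ => ⟨w, h1.head (Or.inl h), h2⟩⟩
      · exact ⟨fun ⟨w, h1, h2⟩ => key h2 a h1 a b (hE.refl a) h,
          fun ⟨w, h1, h2⟩ => ⟨w, h1.head (Or.inr h), h2⟩⟩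
    | refl a => exact Iff.rfl
    | symm a b _ ih => exact ih.symm
    | trans a b c _ _ h1 h2 => exact h1.trans h2
  obtain ⟨w, h1, h2⟩ := h
  obtain ⟨w', h3, h4⟩ := (key2 s w h1).2 ⟨w, .refl, h2⟩
  have h5 : ReflTransGen E w' t := by
    rcases h4 with h4 | h4
    · exact hR _ _ h4
    · exact harc h4
  exact (hlead s w' h3).trans h5

end sound

section

variable (hS : ∀ a b, S a b ↔ (ReflTransGen E a b ∧ ReflTransGen E b a))

include hS

theorem S_equiv : Equivalence S := ⟨fun a => (hS a a).2 ⟨.refl, .refl⟩,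
  fun h => (hS _ _).2 ((hS _ _).1 h).symm, fun h h' => (hS _ _).2
    ⟨((hS _ _).1 h).1.trans ((hS _ _).1 h').1, ((hS _ _).1 h').2.trans ((hS _ _).1 h).2⟩⟩

theorem S_reach {a b : V} (h : S a b) : ReflTransGen E a b := ((hS a b).1 h).1

theorem arcS_reach {a b : V} (h : arcS E S a b) : ReflTransGen E a b := by
  obtain ⟨a', h1, b', h2, h3⟩ := h
  exact ((S_reach hS h1).tail h2).trans (S_reach hS h3)

theorem mk_eq_iff (a b : V) : Quotient.mk (scc E) a = Quotient.mk (scc E) b ↔ S a b :=
  Quotient.eq.trans (hS a b).symm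

theorem adj_cond (a b : V) : (under (condE E)).Adj (Quotient.mk (scc E) a)
    (Quotient.mk (scc E) b) ↔ adjS E S a b := by
  have hE := S_equiv hS
  have h : ∀ a b, condE E (Quotient.mk (scc E) a) (Quotient.mk (scc E) b) ↔ arcS E S a b := by
    intro a b
    constructor
    · rintro ⟨a', b', h1, h2, h3⟩
      exact ⟨a', hE.symm ((mk_eq_iff hS _ _).1 h1), b', h3, (mk_eq_iff hS _ _).1 h2⟩
    · rintro ⟨a', h1, b', h2, h3⟩
      exact ⟨a', b', (mk_eq_iff hS _ _).2 (hE.symm h1), (mk_eq_iff hS _ _).2 h3, h2⟩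
  rw [SimpleGraph.fromRel_adj, h, h, Ne, mk_eq_iff hS]
  rfl

omit hS in
theorem step_avoid {v a b : V} (h : EqvGen (stepR E S v) a b) :
    inN E S v a ↔ inN E S v b := by
  induction h with
  | rel a b h => exact ⟨fun h' => absurd h' h.2.1, fun h' => absurd h' h.2.2⟩
  | refl a => exact Iff.rfl
  | symm a b _ ih => exact ih.symm
  | trans a b c _ _ h1 h2 => exact h1.trans h2

theorem conn_comp (v t : V) :
    Conn (under (condE E)) (Quotient.mk (scc E) '' {c | EqvGen (stepR E S v) c t}) := by
  have hsymm : ∀ {a b}, ReflTransGen (fun x y => (under (condE E)).Adj x y ∧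
      x ∈ Quotient.mk (scc E) '' {c | EqvGen (stepR E S v) c t} ∧
      y ∈ Quotient.mk (scc E) '' {c | EqvGen (stepR E S v) c t}) a b →
      ReflTransGen (fun x y => (under (condE E)).Adj x y ∧
      x ∈ Quotient.mk (scc E) '' {c | EqvGen (stepR E S v) c t} ∧
      y ∈ Quotient.mk (scc E) '' {c | EqvGen (stepR E S v) c t}) b a := by
    intro a b h
    induction h with
    | refl => exact .refl
    | tail _ h2 ih => exact ih.head ⟨h2.1.symm, h2.2.2, h2.2.1⟩
  have key : ∀ a b, EqvGen (stepR E S v) a b → EqvGen (stepR E S v) b t →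
      ReflTransGen (fun x y => (under (condE E)).Adj x y ∧
      x ∈ Quotient.mk (scc E) '' {c | EqvGen (stepR E S v) c t} ∧
      y ∈ Quotient.mk (scc E) '' {c | EqvGen (stepR E S v) c t})
        (Quotient.mk (scc E) a) (Quotient.mk (scc E) b) := by
    intro a b h
    induction h with
    | rel a b h =>
      intro hb
      have ha : EqvGen (stepR E S v) a t := .trans _ _ _ (.rel _ _ h) hb
      rcases h.1 with h1 | h1
      · rw [(mk_eq_iff hS a b).2 h1]
      · exact .single ⟨(adj_cond hS a b).2 h1, ⟨a, ha, rfl⟩, ⟨b, hb, rfl⟩⟩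
    | refl a => exact fun _ => .refl
    | symm a b h ih => exact fun ha => hsymm (ih (.trans _ _ _ (.symm _ _ h) ha))
    | trans a b c _ h2 ih1 ih2 =>
      exact fun hc => (ih1 (.trans _ _ _ h2 hc)).trans (ih2 hc)
  rintro _ ⟨a, ha, rfl⟩ _ ⟨b, hb, rfl⟩
  exact key a b (.trans _ _ _ ha (.symm _ _ hb)) hb

omit hS in
theorem conn_single {W : Type} (G : SimpleGraph W) (a : W) : Conn G {a} := by
  intro x hx y hy
  rw [Set.mem_singleton_iff] at hx hy
  subst hx
  subst hy
  exact .refl

theorem KK_clique [Finite V] (hG : IsChordal (under (condE E))) {t v y z : V}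
    (hvt : ¬ inN E S v t) (hy : KK E S t v y) (hz : KK E S t v z) :
    S y z ∨ adjS E S y z := by
  have hE := S_equiv hS
  have := Fintype.ofFinite (Quotient (scc E))
  by_cases hyz : S y z
  · exact Or.inl hyz
  obtain ⟨hvy, c, hyc, hct⟩ := hy
  obtain ⟨hvz, d, hzd, hdt⟩ := hz
  have hav : ∀ x, EqvGen (stepR E S v) x t → ¬ inN E S v x := fun x hx h =>
    hvt ((step_avoid hx).1 h)
  have nb1 : ∀ u, adjS E S v u → Nbr (under (condE E)) {Quotient.mk (scc E) v}
      {Quotient.mk (scc E) u} := fun u hu => ⟨_, rfl, _, rfl, (adj_cond hS v u).2 hu⟩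
  have nb : ∀ u c, adjS E S u c → EqvGen (stepR E S v) c t →
      Nbr (under (condE E)) (Quotient.mk (scc E) '' {c | EqvGen (stepR E S v) c t})
        {Quotient.mk (scc E) u} := fun u c huc hct =>
    ⟨_, ⟨c, hct, rfl⟩, _, rfl, ((adj_cond hS u c).2 huc).symm⟩
  have dA : ∀ u w, ¬ S u w → Disjoint ({Quotient.mk (scc E) u} : Set (Quotient (scc E)))
      {Quotient.mk (scc E) w} := by
    intro u w hu
    rw [Set.disjoint_singleton]
    exact fun h => hu ((mk_eq_iff hS _ _).1 h)
  have dY : ∀ u, inN E S v u → Disjoint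
      (Quotient.mk (scc E) '' {c | EqvGen (stepR E S v) c t})
      ({Quotient.mk (scc E) u} : Set (Quotient (scc E))) := by
    intro u hu
    rw [Set.disjoint_singleton_right]
    rintro ⟨c, hc, hcu⟩
    exact hav c hc (inN_right hE hu (hE.symm ((mk_eq_iff hS _ _).1 hcu)))
  rcases noC4 hG (Set.univ : Set (Quotient (scc E))).ncard Set.univ {Quotient.mk (scc E) v}
    (Quotient.mk (scc E) '' {c | EqvGen (stepR E S v) c t}) {Quotient.mk (scc E) y}
    {Quotient.mk (scc E) z} le_rfl (Set.subset_univ _) (Set.subset_univ _) (Set.subset_univ _)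
    (Set.subset_univ _) (dY v (Or.inl (hE.refl v))).symm (dA v y hvy.1) (dA v z hvz.1)
    (dY y (Or.inr hvy)) (dY z (Or.inr hvz)) (dA y z hyz)
    (conn_single _ _) (conn_comp hS v t) (conn_single _ _) (conn_single _ _)
    (nb1 y hvy) (nb1 z hvz) (nb y c hyc hct) (nb z d hzd hdt) with h | h
  · obtain ⟨_, rfl, _, ⟨w, hw, rfl⟩, h⟩ := h
    exact absurd (Or.inr ((adj_cond hS v w).1 h)) (hav w hw)
  · obtain ⟨_, rfl, _, rfl, h⟩ := h
    exact Or.inr ((adj_cond hS y z).1 h)

theorem exists_out {t v : V} (hr : ReflTransGen E v t) (hvt : ¬ inN E S v t) :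
    ∃ y, KK E S t v y ∧ arcS E S v y ∧ ReflTransGen E y t := by
  have hE := S_equiv hS
  have key : ∀ p, ReflTransGen E p t →
      (∃ y, inN E S v y ∧ ReflTransGen E p y ∧ ∃ c, E y c ∧ ¬ inN E S v c ∧
        EqvGen (stepR E S v) c t ∧ ReflTransGen E y t) ∨
      (¬ inN E S v p ∧ EqvGen (stepR E S v) p t) := by
    intro p hp
    induction hp using ReflTransGen.head_induction_on with
    | refl => exact Or.inr ⟨hvt, .refl _⟩
    | @head p q hpq hq ih =>
      rcases ih with ⟨y, h1, h2, h3⟩ | ⟨h1, h2⟩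
      · exact Or.inl ⟨y, h1, h2.head hpq, h3⟩
      · by_cases hp : inN E S v p
        · exact Or.inl ⟨p, hp, .refl, q, hpq, h1, h2, hq.head hpq⟩
        · right
          refine ⟨hp, .trans _ _ _ (.rel _ _ ⟨?_, hp, h1⟩) h2⟩
          by_cases hs : S p q
          · exact Or.inl hs
          · exact Or.inr ⟨hs, Or.inl (arcS_of hE hpq)⟩
  rcases key v hr with ⟨y, h1, h2, c, h3, h4, h5, h6⟩ | ⟨h1, -⟩
  · have hvy : adjS E S v y := by
      rcases h1 with h1 | h1
      · exfalso
        apply h4
        by_cases hs : S v c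
        · exact Or.inl hs
        · exact Or.inr ⟨hs, Or.inl (arcS_left hE h1 (arcS_of hE h3))⟩
      · exact h1
    have harc : arcS E S v y := by
      rcases hvy.2 with h | h
      · exact h
      · exact absurd ((hS v y).2 ⟨h2, arcS_reach hS h⟩) hvy.1
    refine ⟨y, ⟨hvy, c, ⟨fun hs => h4 (inN_right hE (Or.inr hvy) hs),
      Or.inl (arcS_of hE h3)⟩, h5⟩, harc, h6⟩
  · exact absurd (Or.inl (hE.refl v)) h1

omit hS in
theorem ncard_reach_lt [Finite V] {x y : V} (h : ReflTransGen E y x)
    (h' : ¬ ReflTransGen E x y) :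
    {u | ReflTransGen E x u}.ncard < {u | ReflTransGen E y u}.ncard := by
  apply Set.ncard_lt_ncard _ (Set.toFinite _)
  refine ⟨fun u hu => h.trans hu, fun hsub => h' (hsub ?_)⟩
  exact (ReflTransGen.refl : ReflTransGen E y y)

theorem stepR_congr {v v' : V} (h : S v v') : stepR E S v = stepR E S v' := by
  have hE := S_equiv hS
  have h1 : ∀ x, inN E S v x ↔ inN E S v' x := fun x =>
    ⟨fun h2 => inN_left hE h2 (hE.symm h), fun h2 => inN_left hE h2 h⟩
  funext a b
  unfold stepR
  rw [h1, h1]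

theorem next_func {t v x : V} (h : nextS E S t v x) : nextF E S t v x := by
  have hE := S_equiv hS
  refine ⟨h, fun v' hv x' h' => ?_⟩
  have h1 : KK E S t v x' := by
    obtain ⟨h1, c, h2, h3⟩ := h'.2.1
    exact ⟨adjS_left hE h1 hv, c, h2, by rw [stepR_congr hS hv]; exact h3⟩
  have h2 : KK E S t v' x := by
    obtain ⟨h1, c, h2, h3⟩ := h.2.1
    exact ⟨adjS_left hE h1 (hE.symm hv), c, h2, by rw [← stepR_congr hS hv]; exact h3⟩
  rcases h.2.2.2 x' h1 (arcS_left hE hv h'.2.2.1) with h3 | h3
  · exact h3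
  · rcases h'.2.2.2 x h2 (arcS_left hE (hE.symm hv) h.2.2.1) with h4 | h4
    · exact hE.symm h4
    · exact (hS x x').2 ⟨arcS_reach hS h3, arcS_reach hS h4⟩

theorem exists_next [Finite V] (hG : IsChordal (under (condE E))) {t v : V}
    (hr : ReflTransGen E v t) (hvt : ¬ inN E S v t) : ∃ x, nextS E S t v x := by
  obtain ⟨y0, h0, h0', -⟩ := exists_out hS hr hvt
  obtain ⟨x, hx, hmax⟩ := Set.exists_max_image {y | KK E S t v y ∧ arcS E S v y}
    (fun x => {u | ReflTransGen E x u}.ncard) (Set.toFinite _) ⟨y0, h0, h0'⟩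
  refine ⟨x, hvt, hx.1, hx.2, fun y hy hy' => ?_⟩
  rcases KK_clique hS hG hvt hx.1 hy with h | h
  · exact Or.inl h
  · rcases h.2 with h1 | h1
    · exact Or.inr h1
    · exfalso
      have h2 := hmax y ⟨hy, hy'⟩
      have h3 := ncard_reach_lt (arcS_reach hS h1)
        (fun h4 => h.1 ((hS x y).2 ⟨h4, arcS_reach hS h1⟩))
      omega

theorem next_iff {t v x : V} (h : nextS E S t v x) (hr : ReflTransGen E v t) :
    ReflTransGen E x t := by
  obtain ⟨h1, h2, h3, h4⟩ := h
  obtain ⟨y, hy, hy', hyt⟩ := exists_out hS hr h1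
  rcases h4 y hy hy' with h5 | h5
  · exact (S_reach hS h5).trans hyt
  · exact (arcS_reach hS h5).trans hyt

/-- The query is complete. -/
theorem reachF_complete [Finite V] (hG : IsChordal (under (condE E))) (s t : V)
    (h : ReflTransGen E s t) : reachF E S s t := by
  have key : ∀ (n : ℕ) (s : V), {u | ReflTransGen E s u}.ncard ≤ n → ReflTransGen E s t →
      reachF E S s t := by
    intro n
    induction n with
    | zero =>
      intro s hn
      have : s ∈ {u | ReflTransGen E s u} := (ReflTransGen.refl : ReflTransGen E s s)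
      rw [(Set.ncard_eq_zero (Set.toFinite _)).1 (Nat.le_zero.1 hn)] at this
      exact absurd this (by simp)
    | succ n ih =>
      intro s hn hr
      by_cases hst : inN E S s t
      · refine ⟨s, .refl _, ?_⟩
        rcases hst with h | h
        · exact Or.inl h
        · rcases h.2 with h1 | h1
          · exact Or.inr h1
          · exact absurd ((hS s t).2 ⟨hr, arcS_reach hS h1⟩) h.1
      · obtain ⟨x, hx⟩ := exists_next hS hG hr hst
        have hxt := next_iff hS hx hr
        have hsx := arcS_reach hS hx.2.2.1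
        have hlt := ncard_reach_lt hsx (fun h => hx.2.1.1.1 ((hS s x).2 ⟨hsx, h⟩))
        obtain ⟨w, h1, h2⟩ := ih x (by omega) hxt
        exact ⟨w, .trans _ _ _ (.rel _ _ (Or.inr (next_func hS hx))) h1, h2⟩
  exact key _ s le_rfl h

end

end core

end Pool.Agent.H255R3.CR
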